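import Mathlib
import Pool.Agent.Y859.SF.Stm

/-!
# Project SF (helper859), file S5C (helper870): the case `t = s ≥ 2`
-/

set_option autoImplicit false

namespace Pool.Agent.Y870.SF

open Finset Pool.Agent.Y859.SF

lemma few_mono {S S' : ℕ → Prop} {ε ε' : ℝ} {N : ℕ} (h : Few S' ε' N) (hε : ε' ≤ ε)
    (hS : ∀ m, N < m → m ≤ 2 * N → S m → S' m) : Few S ε N := by
  obtain ⟨B, hB, hB'⟩ := h
  refine ⟨B, hB.trans ?_, fun m h1 h2 h3 => hB' m h1 h2 (hS m h1 h2 h3)⟩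
  exact mul_le_mul_of_nonneg_right hε (Nat.cast_nonneg _)

lemma few_union {ι : Type*} (I : Finset ι) (P : ι → ℕ → Prop) (ε' : ℝ) (N : ℕ)
    (h : ∀ i ∈ I, Few (P i) ε' N) : Few (fun m => ∃ i ∈ I, P i m) (I.card * ε') N := by
  classical
  choose! B hB hB' using h
  refine ⟨I.biUnion B, ?_, ?_⟩
  · calc ((I.biUnion B).card : ℝ) ≤ ((∑ i ∈ I, (B i).card : ℕ) : ℝ) := by
          exact_mod_cast Finset.card_biUnion_le
      _ = ∑ i ∈ I, ((B i).card : ℝ) := by push_cast; rfl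
      _ ≤ ∑ i ∈ I, ε' * N := Finset.sum_le_sum (fun i hi => hB i hi)
      _ = I.card * ε' * N := by rw [Finset.sum_const, nsmul_eq_mul]; ring
  · rintro m h1 h2 ⟨i, hi, hP⟩
    exact Finset.mem_biUnion.2 ⟨i, hi, hB' i hi m h1 h2 hP⟩

lemma descFactorial_lt {k y m : ℕ} (hk : 1 ≤ k) (hky : k ≤ y) (hym : y < m) :
    y.descFactorial k < m.descFactorial k := by
  obtain ⟨j, rfl⟩ : ∃ j, k = j + 1 := ⟨k - 1, by omega⟩
  obtain ⟨n, rfl⟩ : ∃ n, m = n + 1 := ⟨m - 1, by omega⟩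
  have h1 : y.descFactorial (j + 1) ≤ n.descFactorial (j + 1) :=
    Nat.descFactorial_le _ (by omega)
  refine lt_of_le_of_lt h1 ?_
  rw [Nat.succ_descFactorial_succ, Nat.descFactorial_succ]
  have h2 : 0 < n.descFactorial j := Nat.descFactorial_pos.2 (by omega)
  exact Nat.mul_lt_mul_of_pos_right (by omega) h2

lemma blk_mul (b m : ℕ) (h : b ≤ m) : b.factorial * blk b m = m.factorial := by
  induction m, h using Nat.le_induction with
  | base => simp [blk]
  | succ n hn ih =>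
    have : blk b (n + 1) = blk b n * (n + 1) := by
      unfold blk
      rw [Finset.prod_Ioc_succ_top (by omega)]
    rw [this, ← mul_assoc, ih, Nat.factorial_succ, mul_comm]

lemma blk_eq (b m : ℕ) (h : b ≤ m) : blk b m = m.descFactorial (m - b) := by
  have h1 := blk_mul b m h
  have h2 := Nat.factorial_mul_descFactorial (n := m) (k := m - b) (by omega)
  rw [Nat.sub_sub_self h] at h2
  have h3 : 0 < b.factorial := Nat.factorial_pos _
  exact Nat.eq_of_mul_eq_mul_left h3 (h1.trans h2.symm)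

/-- the product of the two blocks is a square, so they have the same squarefree part -/
lemma key {m b y y' f α : ℕ} (hr : Rep m b y y') (hf : Squarefree f)
    (hU : blk b m = f * α ^ 2) : ∃ β, blk y' y = f * β ^ 2 := by
  obtain ⟨h1, h2, h3, r, hr⟩ := hr
  rw [← blk_mul b m h3.le, ← blk_mul y' y h1] at hr
  have e1 : (b.factorial * y'.factorial) ^ 2 * (blk b m * blk y' y) = r ^ 2 := by
    rw [sq r, ← hr]; ring
  have d1 : b.factorial * y'.factorial ∣ r := by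
    rw [← Nat.pow_dvd_pow_iff (n := 2) (by norm_num)]
    exact ⟨_, e1.symm⟩
  obtain ⟨c, rfl⟩ := d1
  have hpos : 0 < (b.factorial * y'.factorial) ^ 2 := by positivity
  have e2 : blk b m * blk y' y = c ^ 2 := by
    exact Nat.eq_of_mul_eq_mul_left hpos (e1.trans (mul_pow _ _ _))
  have hUpos : 0 < blk b m := by
    rw [blk_eq b m h3.le]; exact Nat.descFactorial_pos.2 (by omega)
  have hα : α ≠ 0 := by rintro rfl; simp [hU] at hUpos
  have hf0 : f ≠ 0 := hf.ne_zero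
  have d2 : α ∣ c := by
    rw [← Nat.pow_dvd_pow_iff (n := 2) (by norm_num)]
    exact ⟨f * blk y' y, by rw [← e2, hU]; ring⟩
  obtain ⟨d, rfl⟩ := d2
  have e3 : f * blk y' y = d ^ 2 := by
    have : α ^ 2 * (f * blk y' y) = α ^ 2 * d ^ 2 := by
      rw [← mul_pow, ← e2, hU]; ring
    exact Nat.eq_of_mul_eq_mul_left (by positivity) this
  have d3 : f ∣ d := (hf.dvd_pow_iff_dvd (by norm_num : (2 : ℕ) ≠ 0)).1 ⟨_, e3.symm⟩
  obtain ⟨e, rfl⟩ := d3
  refine ⟨e, ?_⟩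
  have : f * blk y' y = f * (f * e ^ 2) := by rw [e3]; ring
  exact Nat.eq_of_mul_eq_mul_left (by positivity) this

theorem t_5C (hp : S_PELL) : S_5C := by
  intro h A₀ ε hε
  classical
  set I : Finset (ℕ × ℕ × ℕ) := range (h + 1) ×ˢ range (A₀ + 1) ×ˢ range (A₀ + 1) with hI
  have hcard : (0 : ℝ) < (I.card : ℝ) := by
    have : I.Nonempty := ⟨(0, 0, 0), by simp [hI]⟩
    exact_mod_cast this.card_pos
  have hε' : 0 < ε / I.card := div_pos hε hcard
  let P : ℕ × ℕ × ℕ → ℕ → Prop := fun T m => (2 ≤ T.1 ∧ 1 ≤ T.2.2 ∧ T.2.2 < T.2.1) ∧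
    ∃ y : ℕ, T.1 ≤ y ∧ y < m ∧ T.2.1 ^ 2 * y.descFactorial T.1 = T.2.2 ^ 2 * m.descFactorial T.1
  have hN : ∀ T : ℕ × ℕ × ℕ, ∃ N₀ : ℕ, ∀ N : ℕ, N₀ ≤ N → Few (P T) (ε / I.card) N := by
    rintro ⟨k, α, β⟩
    by_cases hc : 2 ≤ k ∧ 1 ≤ β ∧ β < α
    · obtain ⟨N₀, hN₀⟩ := hp k α β (ε / I.card) hc.1 hc.2.1 hc.2.2 hε'
      exact ⟨N₀, fun N hN => few_mono (hN₀ N hN) le_rfl (fun m _ _ hm => hm.2)⟩
    · refine ⟨0, fun N _ => ⟨∅, ?_, fun m _ _ hm => absurd hm.1 hc⟩⟩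
      simp only [Finset.card_empty, Nat.cast_zero]
      positivity
  choose N₀ hN₀ using hN
  refine ⟨I.sup N₀, fun N hN => ?_⟩
  have hF := few_union I P (ε / I.card) N
    (fun T hT => hN₀ T N ((Finset.le_sup (f := N₀) hT).trans hN))
  refine few_mono hF (by rw [mul_div_cancel₀ _ hcard.ne']) ?_
  rintro m _ _ ⟨b, y, y', hr, hlt, heq, h2, f, α, hf, hU, hα⟩
  obtain ⟨β, hW⟩ := key hr hf hU
  obtain ⟨h3, h4, h5, -⟩ := hr
  have hU' := blk_eq b m h5.le
  have hW' := blk_eq y' y h3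
  rw [← heq] at hW'
  have hk : m - b ≤ y := by omega
  have hlt' : y.descFactorial (m - b) < m.descFactorial (m - b) :=
    descFactorial_lt (by omega) hk (by omega)
  have hWpos : 0 < y.descFactorial (m - b) := Nat.descFactorial_pos.2 hk
  have hβ1 : 1 ≤ β := by
    rcases Nat.eq_zero_or_pos β with h0 | h0
    · exfalso
      rw [← hW', hW, h0] at hWpos
      simp at hWpos
    · exact h0
  have hβα : β < α := by
    rw [← hW', ← hU', hW, hU] at hlt'
    have := lt_of_mul_lt_mul_left hlt' (Nat.zero_le _)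
    exact lt_of_pow_lt_pow_left₀ 2 (Nat.zero_le _) this
  refine ⟨(m - b, α, β), ?_, ⟨h2, hβ1, hβα⟩, y, hk, by omega, ?_⟩
  · simp only [hI, Finset.mem_product, Finset.mem_range]
    omega
  · show α ^ 2 * y.descFactorial (m - b) = β ^ 2 * m.descFactorial (m - b)
    rw [← hW', ← hU', hW, hU]
    ring

end Pool.Agent.Y870.SF
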